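import Mathlib

set_option autoImplicit false

namespace Pool.Agent.Lib_MP_89920a_ins.AL

universe u v w

open Set Topology Filter Cardinal

section Levels

variable {X : Type u} {Γ : Type w} (e : X → Γ → ℝ)

/-- compact (in the pointwise topology) pieces of the algebra generated by the coordinates -/
def Lv : ℕ → Set (X → ℝ)
  | 0 => insert (fun _ => 1) (insert 0 (range fun γ => fun x => e x γ))
  | (k + 1) =>
    ((fun q : (ℝ × ℝ) × ((X → ℝ) × (X → ℝ)) => q.1.1 • q.2.1 + q.1.2 • q.2.2) ''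
      ((Icc (-((k : ℝ) + 1)) ((k : ℝ) + 1) ×ˢ Icc (-((k : ℝ) + 1)) ((k : ℝ) + 1)) ×ˢ
        (Lv k ×ˢ Lv k))) ∪
    ((fun q : (X → ℝ) × (X → ℝ) => q.1 * q.2) '' (Lv k ×ˢ Lv k))

lemma Lv_compact (h0 : ∀ x, ∀ ε : ℝ, 0 < ε → {γ : Γ | ε < |e x γ|}.Finite) :
    ∀ k, IsCompact (Lv e k) := by
  intro k
  induction k with
  | zero =>
    have hT : Tendsto (fun γ => fun x => e x γ) cofinite (𝓝 (0 : X → ℝ)) := by
      rw [tendsto_pi_nhds]
      intro x
      rw [Metric.tendsto_nhds]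
      intro ε hε
      rw [Filter.eventually_cofinite]
      refine (h0 x (ε / 2) (by positivity)).subset ?_
      intro γ hγ
      simp only [Pi.zero_apply, dist_zero_right, Real.norm_eq_abs, not_lt, mem_ofPred_eq] at hγ ⊢
      linarith
    exact (hT.isCompact_insert_range_of_cofinite).insert _
  | succ k ih =>
    refine IsCompact.union ?_ ?_
    · refine IsCompact.image ((isCompact_Icc.prod isCompact_Icc).prod (ih.prod ih)) ?_
      fun_prop
    · exact IsCompact.image (ih.prod ih) (by fun_prop)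

lemma Lv_mono_succ (k : ℕ) : Lv e k ⊆ Lv e (k + 1) := by
  intro f hf
  refine Or.inl ⟨((1, 0), (f, f)), ⟨⟨?_, ?_⟩, ⟨hf, hf⟩⟩, ?_⟩
  · constructor <;> simp only <;> linarith [Nat.cast_nonneg (α := ℝ) k]
  · constructor <;> simp only <;> linarith [Nat.cast_nonneg (α := ℝ) k]
  · simp

lemma Lv_mono : Monotone (Lv e) := monotone_nat_of_le_succ (Lv_mono_succ e)

lemma Lv_continuous [TopologicalSpace X] (hc : Continuous e) : ∀ k, ∀ f ∈ Lv e k, Continuous f := by
  intro k
  induction k with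
  | zero =>
    rintro f (rfl | rfl | ⟨γ, rfl⟩)
    · exact continuous_const
    · exact continuous_const
    · exact (continuous_apply γ).comp hc
  | succ k ih =>
    rintro f (⟨⟨⟨a, b⟩, ⟨u, v⟩⟩, ⟨_, ⟨hu, hv⟩⟩, rfl⟩ | ⟨⟨u, v⟩, ⟨hu, hv⟩, rfl⟩)
    · exact ((ih u hu).const_smul a).add ((ih v hv).const_smul b)
    · exact (ih u hu).mul (ih v hv)

lemma Lv_one (k : ℕ) : (fun _ => 1 : X → ℝ) ∈ Lv e k := Lv_mono e (Nat.zero_le k) (Or.inl rfl)

lemma exists_Lv_approx [TopologicalSpace X] [CompactSpace X] (hc : Continuous e)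
    (hinj : Function.Injective e) (f : X → ℝ) (hf : Continuous f) (ε : ℝ) (hε : 0 < ε) :
    ∃ k, ∃ u ∈ Lv e k, ∀ x, |u x - f x| < ε := by
  let c : Γ → C(X, ℝ) := fun γ => ⟨fun x => e x γ, (continuous_apply γ).comp hc⟩
  let A : Subalgebra ℝ C(X, ℝ) := Algebra.adjoin ℝ (range c)
  have hsep : A.SeparatesPoints := by
    intro x y hxy
    have : e x ≠ e y := fun h => hxy (hinj h)
    obtain ⟨γ, hγ⟩ := Function.ne_iff.1 this
    exact ⟨c γ, ⟨c γ, Algebra.subset_adjoin ⟨γ, rfl⟩, rfl⟩, hγ⟩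
  have hA : ∀ a ∈ A, ∃ k, (a : X → ℝ) ∈ Lv e k := by
    intro a ha
    induction ha using Algebra.adjoin_induction with
    | mem a ha =>
      obtain ⟨γ, rfl⟩ := ha
      exact ⟨0, Or.inr (Or.inr ⟨γ, rfl⟩)⟩
    | algebraMap r =>
      obtain ⟨k, hk⟩ := exists_nat_gt |r|
      refine ⟨k + 1, Or.inl ⟨((r, 0), (fun _ => 1, fun _ => 1)), ⟨⟨?_, ?_⟩, ⟨Lv_one e k, Lv_one e k⟩⟩, ?_⟩⟩
      · have := abs_lt.1 hk
        constructor <;> simp only <;> linarith [this.1, this.2]
      · constructor <;> simp only <;> linarith [Nat.cast_nonneg (α := ℝ) k]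
      · funext x
        simp
    | add a b _ _ iha ihb =>
      obtain ⟨k, hk⟩ := iha
      obtain ⟨l, hl⟩ := ihb
      refine ⟨max k l + 1, Or.inl ⟨((1, 1), (a, b)), ⟨⟨?_, ?_⟩,
        ⟨Lv_mono e (le_max_left _ _) hk, Lv_mono e (le_max_right _ _) hl⟩⟩, ?_⟩⟩
      · constructor <;> simp only <;> linarith [Nat.cast_nonneg (α := ℝ) (max k l)]
      · constructor <;> simp only <;> linarith [Nat.cast_nonneg (α := ℝ) (max k l)]
      · funext x
        simp
    | mul a b _ _ iha ihb =>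
      obtain ⟨k, hk⟩ := iha
      obtain ⟨l, hl⟩ := ihb
      refine ⟨max k l + 1, Or.inr ⟨(a, b),
        ⟨Lv_mono e (le_max_left _ _) hk, Lv_mono e (le_max_right _ _) hl⟩, ?_⟩⟩
      funext x
      simp
  obtain ⟨a, ha⟩ := ContinuousMap.exists_mem_subalgebra_near_continuous_of_separatesPoints A hsep f hf ε hε
  obtain ⟨k, hk⟩ := hA a a.2
  exact ⟨k, _, hk, fun x => by simpa [Real.norm_eq_abs] using ha x⟩

end Levels

/-- If `Z` is a continuous image of an Eberlein compactum, then for each `ε` the continuous functions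
on `Z` are covered by countably many pointwise compact sets of functions of oscillation `< ε`. -/
theorem exists_H {X Z : Type u} [TopologicalSpace X] [CompactSpace X] [TopologicalSpace Z] [T2Space Z]
    {Γ : Type w} (e : X → Γ → ℝ) (hc : Continuous e) (hinj : Function.Injective e)
    (h0 : ∀ x, ∀ ε : ℝ, 0 < ε → {γ : Γ | ε < |e x γ|}.Finite)
    (g : X → Z) (hg : Continuous g) (hs : Function.Surjective g) (ε : ℝ) (hε : 0 < ε) :
    ∃ H : ℕ → Set (Z → ℝ), (∀ h : Z → ℝ, Continuous h → ∃ n, h ∈ H n) ∧ (∀ n, IsCompact (H n)) ∧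
      ∀ n, ∀ φ ∈ H n, ∀ z, ∀ᶠ y in 𝓝 z, |φ y - φ z| < ε := by
  refine ⟨fun n => {φ | ∃ f ∈ Lv e n, ∀ x, |φ (g x) - f x| ≤ ε / 3}, ?_, ?_, ?_⟩
  · intro h hh
    obtain ⟨k, u, hu, hux⟩ := exists_Lv_approx e hc hinj (fun x => h (g x)) (hh.comp hg) (ε / 3) (by positivity)
    refine ⟨k, u, hu, fun x => ?_⟩
    rw [abs_sub_comm]
    exact (hux x).le
  · intro n
    have hK := Lv_compact e h0 n
    have : CompactSpace (Lv e n) := isCompact_iff_compactSpace.1 hK
    have hcl : IsClosed {φ : Z → ℝ | ∃ f ∈ Lv e n, ∀ x, |φ (g x) - f x| ≤ ε / 3} := by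
      have h1 : IsClosed {q : (Z → ℝ) × Lv e n | ∀ x, |q.1 (g x) - (q.2 : X → ℝ) x| ≤ ε / 3} := by
        have : {q : (Z → ℝ) × Lv e n | ∀ x, |q.1 (g x) - (q.2 : X → ℝ) x| ≤ ε / 3} =
            ⋂ x, {q : (Z → ℝ) × Lv e n | |q.1 (g x) - (q.2 : X → ℝ) x| ≤ ε / 3} := by
          ext q; simp
        rw [this]
        refine isClosed_iInter fun x => isClosed_le ?_ continuous_const
        have h2 : Continuous fun q : (Z → ℝ) × Lv e n => q.1 (g x) :=
          (continuous_apply (g x)).comp continuous_fst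
        have h3 : Continuous fun q : (Z → ℝ) × Lv e n => (q.2 : X → ℝ) x :=
          (continuous_apply x).comp (continuous_subtype_val.comp continuous_snd)
        exact (h2.sub h3).abs
      have h4 := isClosedMap_fst_of_compactSpace (X := Z → ℝ) (Y := Lv e n) _ h1
      convert! h4 using 1
      ext φ
      constructor
      · rintro ⟨f, hf, hx⟩
        exact ⟨(φ, ⟨f, hf⟩), hx, rfl⟩
      · rintro ⟨⟨φ', f⟩, hx, rfl⟩
        exact ⟨f, f.2, hx⟩
    have hbd : ∀ z, ∃ c : ℝ, ∀ φ ∈ {φ : Z → ℝ | ∃ f ∈ Lv e n, ∀ x, |φ (g x) - f x| ≤ ε / 3},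
        φ z ∈ Icc (-c) c := by
      intro z
      obtain ⟨x, rfl⟩ := hs z
      have h1 : IsCompact ((fun f : X → ℝ => f x) '' Lv e n) := hK.image (continuous_apply x)
      obtain ⟨c, hc⟩ := h1.isBounded.exists_norm_le
      refine ⟨c + ε / 3, ?_⟩
      rintro φ ⟨f, hf, hx⟩
      have h2 := hc (f x) ⟨f, hf, rfl⟩
      rw [Real.norm_eq_abs] at h2
      have h3 := hx x
      rw [mem_Icc, ← abs_le]
      calc |φ (g x)| = |(φ (g x) - f x) + f x| := by ring_nf
        _ ≤ |φ (g x) - f x| + |f x| := abs_add_le _ _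
        _ ≤ c + ε / 3 := by linarith
    choose c hc using hbd
    have hcomp : IsCompact (Set.pi Set.univ fun z => Icc (-(c z)) (c z)) :=
      isCompact_univ_pi fun z => isCompact_Icc
    exact hcomp.of_isClosed_subset hcl fun φ hφ z _ => hc z φ hφ
  · rintro n φ ⟨f, hf, hφ⟩ z
    have hfc := Lv_continuous e hc n f hf
    by_contra hcon
    have hfr : ∃ᶠ y in 𝓝 z, y ∈ {y | ε ≤ |φ y - φ z|} := by
      rw [Filter.not_eventually] at hcon
      exact hcon.mono fun y hy => not_lt.1 hy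
    have hz : z ∈ closure {y | ε ≤ |φ y - φ z|} := mem_closure_iff_frequently.2 hfr
    let T : Set X := g ⁻¹' {y | ε ≤ |φ y - φ z|}
    have h1 : {y | ε ≤ |φ y - φ z|} ⊆ g '' closure T := by
      intro y hy
      obtain ⟨x, rfl⟩ := hs y
      exact ⟨x, subset_closure hy, rfl⟩
    have h2 : IsClosed (g '' closure T) := (isClosed_closure.isCompact.image hg).isClosed
    obtain ⟨x, hx, hxz⟩ := closure_minimal h1 h2 hz
    have h3 : ∀ᶠ t in 𝓝 x, |f t - f x| < ε / 3 := by
      have := hfc.continuousAt.eventually (Metric.ball_mem_nhds (f x) (show (0 : ℝ) < ε / 3 by positivity))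
      filter_upwards [this] with t ht
      simpa [Real.dist_eq] using ht
    obtain ⟨t, ht1, ht2⟩ := (mem_closure_iff_frequently.1 hx |>.and_eventually h3).exists
    have h4 : ε ≤ |φ (g t) - φ z| := ht1
    have h5 := hφ t
    have h6 := hφ x
    rw [hxz] at h6
    have : |φ (g t) - φ z| < ε := by
      rw [abs_lt]
      rw [abs_le] at h5 h6
      rw [abs_lt] at ht2
      constructor <;> linarith [h5.1, h5.2, h6.1, h6.2, ht2.1, ht2.2]
    linarith

end Pool.Agent.Lib_MP_89920a_ins.AL
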