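import Pool.Agent.Lib_MP_89920a_ins.Retr

set_option autoImplicit false

namespace Pool.Agent.Lib_MP_89920a_ins.AL

universe u v w

open Set Topology Filter Cardinal

section Ret

variable {Z : Type u} [TopologicalSpace Z] [CompactSpace Z] [T2Space Z] {H : ℕ → ℕ → Set (Z → ℝ)}

open Classical in
/-- the retraction of a model (junk value `id`) -/
noncomputable def ret (E : Set (Z ⊕ C(Z, ℝ))) : Z → Z :=
  if h : ∃ r : Z → Z, Continuous r ∧ (∀ z, r z ∈ closure (PtsOf E)) ∧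
    (∀ z, ∀ f ∈ FunOf E, f (r z) = f z) then h.choose else id

lemma ret_spec (hH : Sys H) {E : Set (Z ⊕ C(Z, ℝ))} (hE : Mod H E) :
    Continuous (ret E) ∧ (∀ z, ret E z ∈ closure (PtsOf E)) ∧
    (∀ z, ∀ f ∈ FunOf E, f (ret E z) = f z) := by
  have h := exists_retraction hH hE
  rw [ret, dif_pos h]
  exact h.choose_spec

lemma ret_self (hH : Sys H) {E : Set (Z ⊕ C(Z, ℝ))} (hE : Mod H E) (y : Z)
    (hy : y ∈ closure (PtsOf E)) : ret E y = y :=
  sep hH hE _ _ ((ret_spec hH hE).2.1 y) hy ((ret_spec hH hE).2.2 y)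

lemma ret_ret (hH : Sys H) {E E' : Set (Z ⊕ C(Z, ℝ))} (hE : Mod H E) (hE' : Mod H E')
    (hEE' : E ⊆ E') (z : Z) : ret E (ret E' z) = ret E z := by
  apply sep hH hE _ _ ((ret_spec hH hE).2.1 _) ((ret_spec hH hE).2.1 _)
  intro f hf
  rw [(ret_spec hH hE).2.2 _ f hf, (ret_spec hH hE).2.2 _ f hf]
  exact (ret_spec hH hE').2.2 _ f (hEE' hf)

lemma key_seq (hH : Sys H) (E E' : ℕ → Set (Z ⊕ C(Z, ℝ))) (hE : ∀ i, IsCl (op H) (E i))
    (hE' : ∀ i, IsCl (op H) (E' i)) (h1 : ∀ i, E i ⊆ E' i) (h2 : ∀ i j, i < j → E' i ⊆ E j)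
    (f : ℕ → C(Z, ℝ)) (hf2 : ∀ i z, f i (ret (E' i) z) = f i z)
    (n m : ℕ) (hfn : ∀ i, (f i : Z → ℝ) ∈ H n m) (z : Z) (ε : ℝ) (hm : 3 / ((m : ℝ) + 1) ≤ ε)
    (hz : ∀ i, 2 * ε < |f i z - f i (ret (E i) z)|) : False := by
  have hmE : ∀ i, Mod H (E i) := fun i => mod_of_isCl H _ (hE i)
  have hmE' : ∀ i, Mod H (E' i) := fun i => mod_of_isCl H _ (hE' i)
  have hmono : Monotone E := monotone_nat_of_le_succ fun i =>
    (h1 i).trans (h2 i (i + 1) (Nat.lt_succ_self i))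
  let Eω : Set (Z ⊕ C(Z, ℝ)) := ⋃ i, E i
  have hEω : IsCl (op H) Eω := isCl_directed_union (op H) E (hmono.directed_le) hE
  have hmEω : Mod H Eω := mod_of_isCl H _ hEω
  have hsub : ∀ i, E i ⊆ Eω := fun i => subset_iUnion E i
  have hsub' : ∀ i, E' i ⊆ Eω := fun i => (h2 i (i + 1) (Nat.lt_succ_self i)).trans (hsub _)
  choose φ hφ1 hφ2 hφ3 using fun i => approx' hH (hmE i) n m (f i) (hfn i)
  let zω : Z := ret Eω z
  have hfz : ∀ i, f i zω = f i z := by
    intro i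
    rw [← hf2 i zω, ret_ret hH (hmE' i) hmEω (hsub' i), hf2]
  have hφz : ∀ i, φ i zω = φ i z := by
    intro i
    apply hφ3
    intro h hh
    exact (ret_spec hH hmEω).2.2 _ h (hsub i hh)
  have hφr : ∀ i, φ i z = φ i (ret (E i) z) := by
    intro i
    apply hφ3
    intro h hh
    exact ((ret_spec hH (hmE i)).2.2 _ h hh).symm
  have hm1 : (3 : ℝ) / ((m : ℝ) + 1) = 3 * (1 / ((m : ℝ) + 1)) := by ring
  have hm2 : (2 : ℝ) / ((m : ℝ) + 1) = 2 * (1 / ((m : ℝ) + 1)) := by ring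
  rw [hm1] at hm
  rw [hm2] at hφ2
  have hpos : (0 : ℝ) < 1 / ((m : ℝ) + 1) := by positivity
  set η : ℝ := 1 / ((m : ℝ) + 1) with hη
  have hbig : ∀ i, 2 * ε - 2 * η ≤ |f i zω - φ i zω| := by
    intro i
    rw [hfz, hφz, hφr]
    have h3 := hφ2 i _ ((ret_spec hH (hmE i)).2.1 z)
    have h4 := hz i
    have h5 : |f i z - f i (ret (E i) z)| ≤ |f i z - φ i (ret (E i) z)| +
        |φ i (ret (E i) z) - f i (ret (E i) z)| := abs_sub_le _ _ _
    linarith
  -- ultrafilter limits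
  let 𝒰 : Ultrafilter ℕ := Filter.hyperfilter ℕ
  obtain ⟨F, hF, hFlim⟩ := (hH.comp n m).ultrafilter_le_nhds (𝒰.map fun i => (f i : Z → ℝ)) (by
    rw [Filter.le_principal_iff]
    exact Filter.mem_map.2 (Filter.univ_mem' fun i => hfn i))
  obtain ⟨Φ, hΦ, hΦlim⟩ := (hH.comp n m).ultrafilter_le_nhds (𝒰.map φ) (by
    rw [Filter.le_principal_iff]
    exact Filter.mem_map.2 (Filter.univ_mem' fun i => hφ1 i))
  have hFl : ∀ y, Tendsto (fun i => f i y) 𝒰 (𝓝 (F y)) := fun y =>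
    ((continuous_apply y).tendsto F).comp hFlim
  have hΦl : ∀ y, Tendsto (fun i => φ i y) 𝒰 (𝓝 (Φ y)) := fun y =>
    ((continuous_apply y).tendsto Φ).comp hΦlim
  have hdiff : ∀ y, Tendsto (fun i => |f i y - φ i y|) 𝒰 (𝓝 |F y - Φ y|) := fun y =>
    ((hFl y).sub (hΦl y)).abs
  have h6 : 2 * ε - 2 * η ≤ |F zω - Φ zω| := ge_of_tendsto' (hdiff zω) hbig
  have h7 : ∀ y ∈ PtsOf Eω, |F y - Φ y| ≤ 2 * η := by
    intro y hy
    obtain ⟨j, hj⟩ := mem_iUnion.1 hy
    apply le_of_tendsto (hdiff y)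
    have h8 : ∀ᶠ i in (𝒰 : Filter ℕ), j ≤ i := by
      apply (Filter.hyperfilter_le_cofinite : (𝒰 : Filter ℕ) ≤ cofinite)
      rw [Nat.cofinite_eq_atTop]
      exact Filter.eventually_ge_atTop j
    filter_upwards [h8] with i hi
    have hyi : y ∈ closure (PtsOf (E i)) := subset_closure (hmono hi hj)
    rw [abs_sub_comm]
    exact (hφ2 i y hyi).le
  have h8 := hH.osc n m F hF zω
  have h9 := hH.osc n m Φ hΦ zω
  have hzω : zω ∈ closure (PtsOf Eω) := (ret_spec hH hmEω).2.1 z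
  obtain ⟨y, hy, hy1, hy2⟩ := (mem_closure_iff_frequently.1 hzω |>.and_eventually (h8.and h9)).exists
  have h10 := h7 y hy
  have h11 : |F zω - Φ zω| ≤ |F zω - F y| + |F y - Φ y| + |Φ y - Φ zω| := by
    calc |F zω - Φ zω| ≤ |F zω - F y| + |F y - Φ zω| := abs_sub_le _ _ _
      _ ≤ |F zω - F y| + (|F y - Φ y| + |Φ y - Φ zω|) := by
        have := abs_sub_le (F y) (Φ y) (Φ zω)
        linarith
      _ = _ := by ring
  rw [abs_sub_comm (F zω) (F y)] at h11
  rw [← hη] at hy1 hy2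
  linarith

lemma exists_strictMono {I : Type u} [LinearOrder I] [WellFoundedLT I] (W : Set I) (hW : W.Infinite) :
    ∃ s : ℕ → I, StrictMono s ∧ ∀ n, s n ∈ W := by
  let f : ℕ → I := fun n => (hW.natEmbedding W n : I)
  have hf : Function.Injective f := fun a b h => (hW.natEmbedding W).injective (Subtype.ext h)
  obtain ⟨g, hg | hg⟩ := exists_increasing_or_nonincreasing_subseq (fun a b : I => a < b) f
  · exact ⟨fun n => f (g n), fun a b hab => hg a b hab, fun n => (hW.natEmbedding W (g n)).2⟩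
  · exfalso
    have h1 : ∀ a b, a < b → f (g b) < f (g a) := by
      intro a b hab
      refine lt_of_le_of_ne (not_lt.1 (hg a b hab)) ?_
      intro h
      exact hab.ne (g.injective (hf h)).symm
    obtain ⟨x, ⟨n, rfl⟩, hx⟩ := (wellFounded_lt (α := I)).has_min (range fun n => f (g n)) ⟨_, 0, rfl⟩
    exact hx _ ⟨n + 1, rfl⟩ (h1 n (n + 1) (Nat.lt_succ_self n))

/-- families of functions with small decompositions -/
def Good (E : Set (Z ⊕ C(Z, ℝ))) : Prop :=
  ∃ (Γ : Type u) (d : Γ → Z → ℝ), (∀ γ, Continuous (d γ)) ∧ (∀ γ z, |d γ z| ≤ 1) ∧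
    (∀ z ∈ closure (PtsOf E), ∀ z' ∈ closure (PtsOf E), (∀ γ, d γ z = d γ z') → z = z') ∧
    ∀ ε : ℝ, 0 < ε → ∃ c : Γ → ℕ, ∀ n z, {γ | c γ = n ∧ ε < |d γ z|}.Finite

lemma good_countable (hH : Sys H) (E : Set (Z ⊕ C(Z, ℝ))) (hE : IsCl (op H) E) (hc : E.Countable) :
    Good E := by
  have hFc : (FunOf E).Countable := by
    have : FunOf E = Sum.inr ⁻¹' E := rfl
    rw [this]
    exact hc.preimage Sum.inr_injective
  refine ⟨FunOf E, fun f z => (f : C(Z, ℝ)) z / (1 + ‖(f : C(Z, ℝ))‖), ?_, ?_, ?_, ?_⟩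
  · intro f
    exact (f : C(Z, ℝ)).continuous.div_const _
  · intro f z
    have h1 : (0 : ℝ) < 1 + ‖(f : C(Z, ℝ))‖ := by positivity
    rw [abs_div, abs_of_pos h1, div_le_one h1]
    have := (f : C(Z, ℝ)).norm_coe_le_norm z
    rw [Real.norm_eq_abs] at this
    linarith
  · intro z hz z' hz' h
    apply sep hH (mod_of_isCl H E hE) z z' hz hz'
    intro f hf
    have h1 : (1 + ‖f‖) ≠ 0 := by positivity
    have := h ⟨f, hf⟩
    simpa [div_left_inj' h1] using this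
  · intro ε _
    have : Countable (FunOf E) := hFc.to_subtype
    obtain ⟨c, hc⟩ := Countable.exists_injective_nat (FunOf E)
    refine ⟨c, fun n z => ?_⟩
    apply Set.Subsingleton.finite
    rintro a ⟨ha, _⟩ b ⟨hb, _⟩
    exact hc (ha.trans hb.symm)

end Ret

section Step

variable {Z : Type u} [TopologicalSpace Z] [CompactSpace Z] [T2Space Z] {H : ℕ → ℕ → Set (Z → ℝ)}

lemma good_step (hH : Sys H) (E : Set (Z ⊕ C(Z, ℝ))) (hE : IsCl (op H) E)
    {I : Type u} [LinearOrder I] [WellFoundedLT I] (b : I → Z ⊕ C(Z, ℝ)) (hb : range b = E)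
    (hG : ∀ α : I, Good (hull (op H) (b '' Iic α))) (hG0 : Good (hull (op H) (∅ : Set (Z ⊕ C(Z, ℝ))))) :
    Good E := by
  classical
  let Eb : Set (Z ⊕ C(Z, ℝ)) := hull (op H) ∅
  let E0 : I → Set (Z ⊕ C(Z, ℝ)) := fun α => hull (op H) (b '' Iio α)
  let E1 : I → Set (Z ⊕ C(Z, ℝ)) := fun α => hull (op H) (b '' Iic α)
  have hclb : IsCl (op H) Eb := isCl_hull _ _
  have hcl0 : ∀ α, IsCl (op H) (E0 α) := fun α => isCl_hull _ _
  have hcl1 : ∀ α, IsCl (op H) (E1 α) := fun α => isCl_hull _ _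
  have hmb : Mod H Eb := mod_of_isCl H _ hclb
  have hm0 : ∀ α, Mod H (E0 α) := fun α => mod_of_isCl H _ (hcl0 α)
  have hm1 : ∀ α, Mod H (E1 α) := fun α => mod_of_isCl H _ (hcl1 α)
  have h01 : ∀ α, E0 α ⊆ E1 α := fun α => hull_mono _ (image_mono Iio_subset_Iic_self)
  have h10 : ∀ α β, α < β → E1 α ⊆ E0 β := fun α β h =>
    hull_mono _ (image_mono (Iic_subset_Iio.2 h))
  have h11 : ∀ α β, α ≤ β → E1 α ⊆ E1 β := fun α β h =>
    hull_mono _ (image_mono (Iic_subset_Iic.2 h))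
  have hb1 : ∀ α, Eb ⊆ E1 α := fun α => hull_mono _ (empty_subset _)
  -- continuity of the chain
  have hU : ∀ α, E0 α ⊆ Eb ∪ ⋃ β ∈ Iio α, E1 β := by
    intro α
    let G : Option (Iio α) → Set (Z ⊕ C(Z, ℝ)) := fun o => o.elim Eb (fun β => E1 β)
    have hG1 : IsCl (op H) (⋃ o, G o) := by
      apply isCl_directed_union
      · rintro (_ | β) (_ | β')
        · exact ⟨none, Subset.rfl, Subset.rfl⟩
        · exact ⟨some β', hb1 _, Subset.rfl⟩
        · exact ⟨some β, Subset.rfl, hb1 _⟩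
        · rcases le_total β β' with h | h
          · exact ⟨some β', h11 _ _ h, Subset.rfl⟩
          · exact ⟨some β, Subset.rfl, h11 _ _ h⟩
      · rintro (_ | β)
        · exact hclb
        · exact hcl1 _
    have h2 : E0 α ⊆ ⋃ o, G o := by
      apply hull_min _ _ hG1
      rintro _ ⟨β, hβ, rfl⟩
      refine mem_iUnion.2 ⟨some ⟨β, hβ⟩, ?_⟩
      exact subset_hull _ _ ⟨β, le_rfl, rfl⟩
    refine h2.trans ?_
    refine iUnion_subset ?_
    rintro (_ | β)
    · exact subset_union_left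
    · refine Subset.trans ?_ subset_union_right
      exact subset_biUnion_of_mem (u := fun β => E1 β) β.2
  choose Γ1 d1 hd1c hd1b hd1s hd1g using hG
  obtain ⟨Γb, db, hdbc, hdbb, hdbs, hdbg⟩ := hG0
  let f1 : ∀ α, Γ1 α → C(Z, ℝ) := fun α γ =>
    ⟨fun z => d1 α γ (ret (E1 α) z), (hd1c α γ).comp (ret_spec hH (hm1 α)).1⟩
  let d : (Γb ⊕ Σ α : I, Γ1 α) → Z → ℝ := fun s z =>
    Sum.elim (fun γ => db γ (ret Eb z))
      (fun q => (1 / 2) * (f1 q.1 q.2 z - f1 q.1 q.2 (ret (E0 q.1) z))) s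
  -- value on the smaller retract
  have hf1r : ∀ α γ z, f1 α γ (ret (E0 α) z) = d1 α γ (ret (E0 α) z) := by
    intro α γ z
    change d1 α γ (ret (E1 α) (ret (E0 α) z)) = _
    rw [ret_self hH (hm1 α)]
    have h3 : PtsOf (E0 α) ⊆ PtsOf (E1 α) := fun y hy => h01 α hy
    exact closure_mono h3 ((ret_spec hH (hm0 α)).2.1 z)
  refine ⟨Γb ⊕ Σ α : I, Γ1 α, d, ?_, ?_, ?_, ?_⟩
  · rintro (γ | ⟨α, γ⟩)
    · exact (hdbc γ).comp (ret_spec hH hmb).1
    · have h3 : Continuous fun z => f1 α γ (ret (E0 α) z) :=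
        (f1 α γ).continuous.comp (ret_spec hH (hm0 α)).1
      exact ((f1 α γ).continuous.sub h3).const_mul (1 / 2 : ℝ) |>.congr fun z => rfl
  · rintro (γ | ⟨α, γ⟩) z
    · exact hdbb _ _
    · change |(1 / 2) * (f1 α γ z - f1 α γ (ret (E0 α) z))| ≤ 1
      have h3 : |f1 α γ z| ≤ 1 := hd1b α γ _
      have h4 : |f1 α γ (ret (E0 α) z)| ≤ 1 := hd1b α γ _
      rw [abs_le] at h3 h4 ⊢
      constructor <;> linarith [h3.1, h3.2, h4.1, h4.2]
  · intro z hz z' hz' hdz
    have hbz : ret Eb z = ret Eb z' := by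
      apply hdbs _ ((ret_spec hH hmb).2.1 _) _ ((ret_spec hH hmb).2.1 _)
      intro γ
      exact hdz (Sum.inl γ)
    have hfb : ∀ f ∈ FunOf Eb, f z = f z' := by
      intro f hf
      rw [← (ret_spec hH hmb).2.2 z f hf, ← (ret_spec hH hmb).2.2 z' f hf, hbz]
    have hstep : ∀ α, ret (E0 α) z = ret (E0 α) z' → ret (E1 α) z = ret (E1 α) z' := by
      intro α hα
      apply hd1s α _ ((ret_spec hH (hm1 α)).2.1 _) _ ((ret_spec hH (hm1 α)).2.1 _)
      intro γ
      have h3 : (1 / 2) * (f1 α γ z - f1 α γ (ret (E0 α) z)) =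
        (1 / 2) * (f1 α γ z' - f1 α γ (ret (E0 α) z')) := hdz (Sum.inr ⟨α, γ⟩)
      rw [hα] at h3
      have h4 : f1 α γ z = f1 α γ z' := by linarith
      exact h4
    have hall : ∀ α, ret (E0 α) z = ret (E0 α) z' := by
      intro α
      induction α using WellFoundedLT.induction with
      | ind α ih =>
        apply sep hH (hm0 α) _ _ ((ret_spec hH (hm0 α)).2.1 _) ((ret_spec hH (hm0 α)).2.1 _)
        intro f hf
        rw [(ret_spec hH (hm0 α)).2.2 z f hf, (ret_spec hH (hm0 α)).2.2 z' f hf]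
        rcases hU α hf with h | h
        · exact hfb f h
        · obtain ⟨β, hβ, hfβ⟩ := mem_iUnion₂.1 h
          rw [← (ret_spec hH (hm1 β)).2.2 z f hfβ, ← (ret_spec hH (hm1 β)).2.2 z' f hfβ,
            hstep β (ih β hβ)]
    apply sep hH (mod_of_isCl H E hE) _ _ hz hz'
    intro f hf
    have hf' : Sum.inr f ∈ range b := by rw [hb]; exact hf
    obtain ⟨β, hβ⟩ := hf'
    have hfβ : f ∈ FunOf (E1 β) := by
      change Sum.inr f ∈ E1 β
      rw [← hβ]
      exact subset_hull _ _ ⟨β, le_rfl, rfl⟩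
    rw [← (ret_spec hH (hm1 β)).2.2 z f hfβ, ← (ret_spec hH (hm1 β)).2.2 z' f hfβ,
            hstep β (hall β)]
  · intro ε hε
    obtain ⟨m, hm⟩ : ∃ m : ℕ, 3 / ((m : ℝ) + 1) ≤ ε := by
      obtain ⟨m, hm⟩ := exists_nat_one_div_lt (show 0 < ε / 3 by positivity)
      refine ⟨m, ?_⟩
      have : (3 : ℝ) / ((m : ℝ) + 1) = 3 * (1 / ((m : ℝ) + 1)) := by ring
      rw [this]
      linarith
    obtain ⟨cb, hcb⟩ := hdbg ε hε
    choose c1 hc1 using fun α => hd1g α ε hε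
    choose nn hnn using fun (α : I) (γ : Γ1 α) => hH.cov m (f1 α γ) (f1 α γ).continuous
    refine ⟨fun s => Sum.elim cb (fun q => Nat.pair (c1 q.1 q.2) (nn q.1 q.2)) s, fun N z => ?_⟩
    let T : Set (Σ α : I, Γ1 α) := {q | Nat.pair (c1 q.1 q.2) (nn q.1 q.2) = N ∧
      ε < |(1 / 2) * (f1 q.1 q.2 z - f1 q.1 q.2 (ret (E0 q.1) z))|}
    have hT : T.Finite := by
      have hfib : ∀ α, {γ : Γ1 α | (⟨α, γ⟩ : Σ α : I, Γ1 α) ∈ T}.Finite := by
        intro α
        refine ((hc1 α N.unpair.1 (ret (E1 α) z)).union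
          (hc1 α N.unpair.1 (ret (E0 α) z))).subset ?_
        rintro γ ⟨h3, h4⟩
        have h5 : c1 α γ = N.unpair.1 := by
          rw [← h3]; simp
        have h6 : ε < |d1 α γ (ret (E1 α) z)| ∨ ε < |d1 α γ (ret (E0 α) z)| := by
          by_contra hcon
          push Not at hcon
          obtain ⟨h7, h8⟩ := hcon
          rw [← hf1r] at h8
          have h7' : |f1 α γ z| ≤ ε := h7
          have h9 : |(1 / 2) * (f1 α γ z - f1 α γ (ret (E0 α) z))| ≤ ε := by
            rw [abs_le] at h7' h8 ⊢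
            constructor <;> linarith [h7'.1, h7'.2, h8.1, h8.2]
          exact absurd h4 (not_lt.2 h9)
        rcases h6 with h6 | h6
        · exact Or.inl ⟨h5, h6⟩
        · exact Or.inr ⟨h5, h6⟩
      have hfst : (Sigma.fst '' T).Finite := by
        by_contra hinf
        obtain ⟨s, hs, hsT⟩ := exists_strictMono (Sigma.fst '' T) hinf
        have h3 : ∀ i, ∃ γ : Γ1 (s i), (⟨s i, γ⟩ : Σ α : I, Γ1 α) ∈ T := by
          intro i
          obtain ⟨⟨α, γ⟩, hq, hqs⟩ := hsT i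
          simp only at hqs
          subst hqs
          exact ⟨γ, hq⟩
        choose γ hγ using h3
        refine key_seq hH (fun i => E0 (s i)) (fun i => E1 (s i)) (fun i => hcl0 _) (fun i => hcl1 _)
          (fun i => h01 _) (fun i j hij => h10 _ _ (hs hij)) (fun i => f1 (s i) (γ i)) ?_
          N.unpair.2 m ?_ z ε hm ?_
        · intro i y
          change d1 _ _ (ret _ (ret _ y)) = d1 _ _ (ret _ y)
          rw [ret_self hH (hm1 (s i)) _ ((ret_spec hH (hm1 (s i))).2.1 y)]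
        · intro i
          have h4 : nn (s i) (γ i) = N.unpair.2 := by
            rw [← (hγ i).1]; simp
          rw [← h4]
          exact hnn (s i) (γ i)
        · intro i
          have h4 := (hγ i).2
          simp only at h4
          rw [abs_mul, abs_of_pos (show (0 : ℝ) < 1 / 2 by norm_num)] at h4
          linarith
      refine (hfst.biUnion fun α _ => (hfib α).image (Sigma.mk α)).subset ?_
      rintro ⟨α, γ⟩ hq
      exact mem_biUnion ⟨⟨α, γ⟩, hq, rfl⟩ ⟨γ, hq, rfl⟩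
    have hB : {γ | cb γ = N ∧ ε < |db γ (ret Eb z)|}.Finite := hcb N _
    refine ((hB.image Sum.inl).union (hT.image Sum.inr)).subset ?_
    rintro (γ | q) ⟨h3, h4⟩
    · exact Or.inl ⟨γ, ⟨h3, h4⟩, rfl⟩
    · exact Or.inr ⟨q, ⟨h3, h4⟩, rfl⟩

theorem good_all (hH : Sys H) : ∀ (κ : Cardinal.{u}) (E : Set (Z ⊕ C(Z, ℝ))), IsCl (op H) E →
    #E = κ → Good E := by
  intro κ
  induction κ using WellFoundedLT.induction with
  | ind κ ih =>
    intro E hE hcard
    by_cases hκ : κ ≤ ℵ₀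
    · exact good_countable hH E hE (Cardinal.le_aleph0_iff_set_countable.1 (hcard.le.trans hκ))
    · have hκ' : ℵ₀ < κ := not_le.1 hκ
      have h1 : #κ.ord.ToType = #E := by rw [Cardinal.mk_ord_toType, hcard]
      obtain ⟨e⟩ := Cardinal.eq.1 h1
      refine good_step hH E hE (I := κ.ord.ToType) (fun α => (e α : Z ⊕ C(Z, ℝ))) ?_ ?_ ?_
      · ext x
        constructor
        · rintro ⟨α, rfl⟩
          exact (e α).2
        · intro hx
          exact ⟨e.symm ⟨x, hx⟩, by simp⟩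
      · intro α
        have h2 : #(Iic α) < κ := by
          have h3 : #(Iio α) < κ := by
            simpa using Cardinal.mk_Iio_lt α (by simp)
          have h4 : Iic α = insert α (Iio α) := by
            ext x; simp [le_iff_eq_or_lt]
          rw [h4]
          refine (Cardinal.mk_insert_le).trans_lt ?_
          exact Cardinal.add_lt_of_lt hκ'.le h3 (Cardinal.one_lt_aleph0.trans hκ')
        have h5 : #(hull (op H) ((fun α => (e α : Z ⊕ C(Z, ℝ))) '' Iic α)) ≤ max ℵ₀ #(Iic α) := by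
          apply card_hull_le (op H) (op_countable H) _ _ (le_max_left _ _)
          exact Cardinal.mk_image_le.trans (le_max_right _ _)
        exact ih _ (h5.trans_lt (max_lt hκ' h2)) _ (isCl_hull _ _) rfl
      · have h5 : #(hull (op H) (∅ : Set (Z ⊕ C(Z, ℝ)))) ≤ ℵ₀ := by
          apply card_hull_le (op H) (op_countable H) _ _ le_rfl
          simp
        exact ih _ (h5.trans_lt hκ') _ (isCl_hull _ _) rfl

/-- A compact space with a system as above embeds in some `c₀(Γ)`. -/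
theorem eberlein_of_sys (hH : Sys H) : ∃ (Γ : Type u) (g : Z → Γ → ℝ), Continuous g ∧
    Function.Injective g ∧ (∀ z γ, |g z γ| ≤ 1) ∧
    ∀ z, ∀ ε : ℝ, 0 < ε → {γ : Γ | ε < |g z γ|}.Finite := by
  obtain ⟨Γ, d, hdc, hdb, hds, hdg⟩ := good_all hH _ Set.univ (fun _ _ => subset_univ _) rfl
  have hcl : ∀ z : Z, z ∈ closure (PtsOf (Set.univ : Set (Z ⊕ C(Z, ℝ)))) :=
    fun z => subset_closure (mem_univ _)
  choose c hc using fun m : ℕ => hdg (1 / ((m : ℝ) + 1)) (by positivity)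
  let tr : ℕ → ℝ → ℝ := fun m t => max (t - 1 / ((m : ℝ) + 1)) 0 - max (-t - 1 / ((m : ℝ) + 1)) 0
  have htrc : ∀ m, Continuous (tr m) := by
    intro m
    simp only [tr]
    fun_prop
  have htr0 : ∀ (m : ℕ) (t : ℝ), |t| ≤ 1 / ((m : ℝ) + 1) → tr m t = 0 := by
    intro m t ht
    rw [abs_le] at ht
    simp only [tr]
    rw [max_eq_right (by linarith [ht.2]), max_eq_right (by linarith [ht.1])]
    simp
  have htrb : ∀ (m : ℕ) (t : ℝ), |t| ≤ 1 → |tr m t| ≤ 1 := by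
    intro m t ht
    have hpos : (0 : ℝ) < 1 / ((m : ℝ) + 1) := by positivity
    rw [abs_le] at ht ⊢
    simp only [tr]
    constructor
    · have h1 : (0 : ℝ) ≤ max (t - 1 / ((m : ℝ) + 1)) 0 := le_max_right _ _
      have h2 : max (-t - 1 / ((m : ℝ) + 1)) 0 ≤ 1 := max_le (by linarith [ht.1]) (by norm_num)
      linarith
    · have h1 : (0 : ℝ) ≤ max (-t - 1 / ((m : ℝ) + 1)) 0 := le_max_right _ _
      have h2 : max (t - 1 / ((m : ℝ) + 1)) 0 ≤ 1 := max_le (by linarith [ht.2]) (by norm_num)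
      linarith
  have htri : ∀ s t : ℝ, (∀ m, tr m s = tr m t) → s = t := by
    intro s t hst
    have hlim : ∀ s : ℝ, Tendsto (fun m : ℕ => tr m s) atTop (𝓝 (max s 0 - max (-s) 0)) := by
      intro s
      have h1 : Tendsto (fun m : ℕ => (1 : ℝ) / ((m : ℝ) + 1)) atTop (𝓝 0) :=
        tendsto_one_div_add_atTop_nhds_zero_nat
      have h2 : Tendsto (fun m : ℕ => s - 1 / ((m : ℝ) + 1)) atTop (𝓝 (s - 0)) := h1.const_sub s
      have h3 : Tendsto (fun m : ℕ => -s - 1 / ((m : ℝ) + 1)) atTop (𝓝 (-s - 0)) := h1.const_sub (-s)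
      rw [sub_zero] at h2 h3
      exact (h2.max tendsto_const_nhds).sub (h3.max tendsto_const_nhds)
    have h1 := hlim s
    have h2 := hlim t
    have h3 : (fun m : ℕ => tr m s) = fun m => tr m t := funext hst
    rw [h3] at h1
    have h4 := tendsto_nhds_unique h1 h2
    have h5 : ∀ s : ℝ, max s 0 - max (-s) 0 = s := by
      intro s
      rcases le_total s 0 with h | h
      · rw [max_eq_right h, max_eq_left (by linarith)]; ring
      · rw [max_eq_left h, max_eq_right (by linarith)]; ring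
    rwa [h5, h5] at h4
  -- the map
  let g : Z → (Γ × ℕ) → ℝ := fun z q =>
    tr q.2 (d q.1 z) / (((q.2 : ℝ) + 1) * ((c q.2 q.1 : ℝ) + 1))
  refine ⟨Γ × ℕ, g, ?_, ?_, ?_, ?_⟩
  · refine continuous_pi fun q => ?_
    exact ((htrc q.2).comp (hdc q.1)).div_const _
  · intro z z' hzz
    apply hds z (hcl z) z' (hcl z')
    intro γ
    apply htri
    intro m
    have h1 := congrFun hzz (γ, m)
    have h2 : (((m : ℝ) + 1) * ((c m γ : ℝ) + 1)) ≠ 0 := by positivity
    simpa [g, div_left_inj' h2] using h1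
  · intro z q
    have h1 : (1 : ℝ) ≤ ((q.2 : ℝ) + 1) * ((c q.2 q.1 : ℝ) + 1) := by
      have h2 : (0 : ℝ) ≤ (q.2 : ℝ) := by positivity
      have h3 : (0 : ℝ) ≤ (c q.2 q.1 : ℝ) := by positivity
      nlinarith
    have h2 : (0 : ℝ) < ((q.2 : ℝ) + 1) * ((c q.2 q.1 : ℝ) + 1) := by linarith
    change |tr q.2 (d q.1 z) / (((q.2 : ℝ) + 1) * ((c q.2 q.1 : ℝ) + 1))| ≤ 1
    rw [abs_div, abs_of_pos h2, div_le_one h2]
    exact (htrb q.2 _ (hdb _ _)).trans h1
  · intro z ε hε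
    obtain ⟨N, hN⟩ := exists_nat_gt (1 / ε)
    have hfin : (⋃ m ∈ Finset.range N, ⋃ n ∈ Finset.range N,
        (fun γ => (γ, m)) '' {γ | c m γ = n ∧ 1 / ((m : ℝ) + 1) < |d γ z|}).Finite := by
      refine Set.Finite.biUnion (Finset.finite_toSet _) fun m _ => ?_
      refine Set.Finite.biUnion (Finset.finite_toSet _) fun n _ => ?_
      exact (hc m n z).image _
    refine hfin.subset ?_
    rintro ⟨γ, m⟩ hq
    have hq' : ε < |tr m (d γ z) / (((m : ℝ) + 1) * ((c m γ : ℝ) + 1))| := hq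
    have h2 : (0 : ℝ) < ((m : ℝ) + 1) * ((c m γ : ℝ) + 1) := by positivity
    rw [abs_div, abs_of_pos h2, lt_div_iff₀ h2] at hq'
    have h3 := htrb m (d γ z) (hdb γ z)
    have h4 : ((m : ℝ) + 1) * ((c m γ : ℝ) + 1) < N := by
      have h5 : ε * (((m : ℝ) + 1) * ((c m γ : ℝ) + 1)) < 1 := by linarith
      have h6 : ((m : ℝ) + 1) * ((c m γ : ℝ) + 1) < 1 / ε := by
        rw [lt_div_iff₀ hε]
        linarith
      linarith
    have hm0 : (0 : ℝ) ≤ (m : ℝ) := by positivity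
    have hc0 : (0 : ℝ) ≤ (c m γ : ℝ) := by positivity
    have h5 : (m : ℝ) < N := by nlinarith
    have h6 : (c m γ : ℝ) < N := by nlinarith
    have h7 : 1 / ((m : ℝ) + 1) < |d γ z| := by
      by_contra hcon
      rw [htr0 m _ (not_lt.1 hcon)] at hq'
      simp only [abs_zero] at hq'
      have : 0 < ε * (((m : ℝ) + 1) * ((c m γ : ℝ) + 1)) := by positivity
      linarith
    simp only [mem_iUnion, Finset.mem_range]
    refine ⟨m, by exact_mod_cast h5, c m γ, by exact_mod_cast h6, γ, ⟨rfl, h7⟩, rfl⟩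

end Step

end Pool.Agent.Lib_MP_89920a_ins.AL
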