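-- The theorem of Amir and Lindenstrauss: a weakly compact subset of a Banach space has a continuous
-- injection into some c₀(Γ) with the pointwise topology; all universes.
import Pool.Agent.Lib_MP_89920a_ins.Approx
import Pool.Agent.Lib_MP_89920a_ins.Induct

set_option autoImplicit false

namespace Pool.Agent.Lib_MP_89920a_ins.AL

universe u v w

open Set Topology Filter Cardinal

section Compact

variable {X : Type u} {Γ : Type w} (e : X → Γ → ℝ)

lemma Lv_compact_of_range (hK : IsCompact (range fun γ => fun x => e x γ)) :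
    ∀ k, IsCompact (Lv e k) := by
  intro k
  induction k with
  | zero => exact (hK.insert _).insert _
  | succ k ih =>
    refine IsCompact.union ?_ ?_
    · refine IsCompact.image ((isCompact_Icc.prod isCompact_Icc).prod (ih.prod ih)) ?_
      fun_prop
    · exact IsCompact.image (ih.prod ih) (by fun_prop)

/-- A compact space with a pointwise compact separating set of continuous functions has a system in the
sense of `Sys`. -/
theorem exists_H_of_range [TopologicalSpace X] [CompactSpace X]
    (hc : Continuous e) (hinj : Function.Injective e)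
    (hK : IsCompact (range fun γ => fun x => e x γ)) (ε : ℝ) (hε : 0 < ε) :
    ∃ H : ℕ → Set (X → ℝ), (∀ h : X → ℝ, Continuous h → ∃ n, h ∈ H n) ∧ (∀ n, IsCompact (H n)) ∧
      ∀ n, ∀ φ ∈ H n, ∀ z, ∀ᶠ y in 𝓝 z, |φ y - φ z| < ε := by
  refine ⟨fun n => {φ | ∃ f ∈ Lv e n, ∀ x, |φ x - f x| ≤ ε / 4}, ?_, ?_, ?_⟩
  · intro h hh
    obtain ⟨k, u, hu, hux⟩ := exists_Lv_approx e hc hinj h hh (ε / 4) (by positivity)
    refine ⟨k, u, hu, fun x => ?_⟩
    rw [abs_sub_comm]
    exact (hux x).le
  · intro n
    have hK := Lv_compact_of_range e hK n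
    have hcomp : IsCompact (Set.pi Set.univ fun _ : X => Icc (-(ε / 4)) (ε / 4)) :=
      isCompact_univ_pi fun z => isCompact_Icc
    have h1 := (hK.prod hcomp).image (f := fun q : (X → ℝ) × (X → ℝ) => q.1 + q.2) (by fun_prop)
    convert! h1 using 1
    ext φ
    constructor
    · rintro ⟨f, hf, hx⟩
      refine ⟨(f, φ - f), ⟨hf, fun x _ => ?_⟩, ?_⟩
      · exact abs_le.1 (hx x)
      · simp
    · rintro ⟨⟨f, u⟩, ⟨hf, hu⟩, rfl⟩
      refine ⟨f, hf, fun x => ?_⟩
      have h2 := hu x (mem_univ x)
      simp only [Pi.add_apply, add_sub_cancel_left]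
      exact abs_le.2 h2
  · rintro n φ ⟨f, hf, hφ⟩ z
    have hfc := Lv_continuous e hc n f hf
    have h3 : ∀ᶠ t in 𝓝 z, |f t - f z| < ε / 4 := by
      have := hfc.continuousAt.eventually (Metric.ball_mem_nhds (f z) (show (0 : ℝ) < ε / 4 by positivity))
      filter_upwards [this] with t ht
      simpa [Real.dist_eq] using ht
    filter_upwards [h3] with t ht
    have h5 := abs_le.1 (hφ t)
    have h6 := abs_le.1 (hφ z)
    rw [abs_lt] at ht ⊢
    constructor <;> linarith [h5.1, h5.2, h6.1, h6.2, ht.1, ht.2]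

/-- A compact Hausdorff space with a pointwise compact separating set of continuous functions embeds in
some `c₀(Γ)`. -/
theorem c0_of_range [TopologicalSpace X] [CompactSpace X] [T2Space X]
    (hc : Continuous e) (hinj : Function.Injective e)
    (hK : IsCompact (range fun γ => fun x => e x γ)) :
    ∃ (Γ : Type u) (g : X → Γ → ℝ), Continuous g ∧ Function.Injective g ∧ (∀ z γ, |g z γ| ≤ 1) ∧
    ∀ z, ∀ ε : ℝ, 0 < ε → {γ : Γ | ε < |g z γ|}.Finite := by
  choose H hH1 hH2 hH3 using fun m : ℕ =>
    exists_H_of_range e hc hinj hK (1 / ((m : ℝ) + 1)) (by positivity)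
  have hsys : Sys (fun n m => H m n) :=
    ⟨fun m h hh => hH1 m h hh, fun n m => hH2 m n, fun n m => hH3 m n⟩
  exact eberlein_of_sys hsys

end Compact

section Weak

variable {E : Type w} [NormedAddCommGroup E] [NormedSpace ℝ E]

/-- Amir and Lindenstrauss: a compact space which is continuously embedded in a normed space with its
weak topology embeds in some `c₀(Γ)`. -/
theorem c0_of_weak {X : Type u} [TopologicalSpace X] [CompactSpace X] [T2Space X]
    (w : X → WeakSpace ℝ E) (hw : Continuous w) (hi : Function.Injective w) :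
    ∃ (Γ : Type u) (g : X → Γ → ℝ), Continuous g ∧ Function.Injective g ∧ (∀ z γ, |g z γ| ≤ 1) ∧
    ∀ z, ∀ ε : ℝ, 0 < ε → {γ : Γ | ε < |g z γ|}.Finite := by
  let B : Set (WeakDual ℝ E) := WeakDual.toStrongDual ⁻¹' Metric.closedBall (0 : StrongDual ℝ E) 1
  have hB : IsCompact B := WeakDual.isCompact_closedBall (𝕜 := ℝ) (E := E) 0 1
  have : CompactSpace B := isCompact_iff_compactSpace.1 hB
  let e : X → B → ℝ := fun x f => (f : WeakDual ℝ E) ((toWeakSpace ℝ E).symm (w x))
  have hev : ∀ f : StrongDual ℝ E, Continuous fun x => f ((toWeakSpace ℝ E).symm (w x)) := by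
    intro f
    exact (WeakBilin.eval_continuous (topDualPairing ℝ E).flip f).comp hw
  refine c0_of_range e (continuous_pi fun f => hev _) ?_ ?_
  · intro x y hxy
    by_contra hne
    have h1 : (toWeakSpace ℝ E).symm (w x) - (toWeakSpace ℝ E).symm (w y) ≠ 0 := by
      intro h
      exact hne (hi ((toWeakSpace ℝ E).symm.injective (sub_eq_zero.1 h)))
    obtain ⟨f, hf1, hf2⟩ := exists_dual_vector ℝ _ (norm_ne_zero_iff.2 h1)
    have h2 := congrFun hxy (⟨StrongDual.toWeakDual f, by
      simp only [B, mem_preimage, Metric.mem_closedBall, dist_zero_right]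
      exact hf1.le⟩ : B)
    have h3 : f ((toWeakSpace ℝ E).symm (w x)) = f ((toWeakSpace ℝ E).symm (w y)) := h2
    rw [map_sub, h3, sub_self] at hf2
    have h4 := norm_ne_zero_iff.2 h1
    exact h4 (by simpa using hf2.symm)
  · refine isCompact_range (continuous_pi fun x => ?_)
    exact (WeakDual.eval_continuous _).comp continuous_subtype_val

end Weak

end Pool.Agent.Lib_MP_89920a_ins.AL
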