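import Pool.Agent.Lib_MP_89920a_ins.Hull

set_option autoImplicit false

namespace Pool.Agent.Lib_MP_89920a_ins.AL

universe u v w

open Set Topology Filter Cardinal

section Op

variable {Z : Type u} [TopologicalSpace Z] (H : ℕ → ℕ → Set (Z → ℝ))

/-- points in a set of points and functions -/
def PtsOf (E : Set (Z ⊕ C(Z, ℝ))) : Set Z := {z | Sum.inl z ∈ E}

/-- functions in a set of points and functions -/
def FunOf (E : Set (Z ⊕ C(Z, ℝ))) : Set C(Z, ℝ) := {f | Sum.inr f ∈ E}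

/-- closedness under the two Skolem operations -/
structure Mod (E : Set (Z ⊕ C(Z, ℝ))) : Prop where
  a : ∀ F : Finset Z, (F : Set Z) ⊆ PtsOf E → ∀ (n m : ℕ) (r : Z → ℚ) (δ : ℚ),
    (∃ h : C(Z, ℝ), (h : Z → ℝ) ∈ H n m ∧ ∀ y ∈ F, |h y - r y| < δ) →
    ∃ h : C(Z, ℝ), h ∈ FunOf E ∧ (h : Z → ℝ) ∈ H n m ∧ ∀ y ∈ F, |h y - r y| < δ
  b : ∀ F : Finset C(Z, ℝ), (F : Set C(Z, ℝ)) ⊆ FunOf E → ∀ (r : C(Z, ℝ) → ℚ) (δ : ℚ),
    (∃ z : Z, ∀ f ∈ F, |f z - r f| < δ) → ∃ z ∈ PtsOf E, ∀ f ∈ F, |f z - r f| < δ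

open Classical in
/-- first Skolem function -/
noncomputable def chA (F : Finset (Z ⊕ C(Z, ℝ))) (q : ℕ × ℕ × (F → ℚ) × ℚ) : Z ⊕ C(Z, ℝ) :=
  if h : ∃ h : C(Z, ℝ), (h : Z → ℝ) ∈ H q.1 q.2.1 ∧
      ∀ y, ∀ hy : Sum.inl y ∈ F, |h y - q.2.2.1 ⟨Sum.inl y, hy⟩| < q.2.2.2
  then Sum.inr h.choose else Sum.inr 0

open Classical in
/-- second Skolem function -/
noncomputable def chB (F : Finset (Z ⊕ C(Z, ℝ))) (q : (F → ℚ) × ℚ) : Z ⊕ C(Z, ℝ) :=
  if h : ∃ z : Z, ∀ f : C(Z, ℝ), ∀ hf : Sum.inr f ∈ F, |f z - q.1 ⟨Sum.inr f, hf⟩| < q.2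
  then Sum.inl h.choose else Sum.inr 0

/-- the finitary operation -/
def op (F : Finset (Z ⊕ C(Z, ℝ))) : Set (Z ⊕ C(Z, ℝ)) := range (chA H F) ∪ range (chB F)

lemma op_countable (F : Finset (Z ⊕ C(Z, ℝ))) : (op H F).Countable :=
  (countable_range _).union (countable_range _)

lemma mod_of_isCl (E : Set (Z ⊕ C(Z, ℝ))) (hE : IsCl (op H) E) : Mod H E := by
  classical
  constructor
  · intro F hF n m r δ hex
    let F' : Finset (Z ⊕ C(Z, ℝ)) := F.image Sum.inl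
    have hF' : (F' : Set (Z ⊕ C(Z, ℝ))) ⊆ E := by
      intro x hx
      simp only [F', Finset.coe_image, mem_image] at hx
      obtain ⟨y, hy, rfl⟩ := hx
      exact hF hy
    let r' : F' → ℚ := fun s => Sum.elim r (fun _ => 0) s.1
    have h1 : chA H F' (n, m, r', δ) ∈ E := hE F' hF' (Or.inl ⟨_, rfl⟩)
    have hex' : ∃ h : C(Z, ℝ), (h : Z → ℝ) ∈ H n m ∧
      ∀ y, ∀ hy : Sum.inl y ∈ F', |h y - r' ⟨Sum.inl y, hy⟩| < δ := by
      obtain ⟨h, hh1, hh2⟩ := hex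
      refine ⟨h, hh1, fun y hy => ?_⟩
      have : y ∈ F := by simpa [F'] using hy
      exact hh2 y this
    have h2 : chA H F' (n, m, r', δ) = Sum.inr hex'.choose := by
      rw [chA]
      exact dif_pos hex'
    rw [h2] at h1
    refine ⟨hex'.choose, h1, hex'.choose_spec.1, fun y hy => ?_⟩
    exact hex'.choose_spec.2 y (by simp [F', hy])
  · intro F hF r δ hex
    let F' : Finset (Z ⊕ C(Z, ℝ)) := F.image Sum.inr
    have hF' : (F' : Set (Z ⊕ C(Z, ℝ))) ⊆ E := by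
      intro x hx
      simp only [F', Finset.coe_image, mem_image] at hx
      obtain ⟨y, hy, rfl⟩ := hx
      exact hF hy
    let r' : F' → ℚ := fun s => Sum.elim (fun _ => 0) r s.1
    have h1 : chB F' (r', δ) ∈ E := hE F' hF' (Or.inr ⟨_, rfl⟩)
    have hex' : ∃ z : Z, ∀ f : C(Z, ℝ), ∀ hf : Sum.inr f ∈ F', |f z - r' ⟨Sum.inr f, hf⟩| < δ := by
      obtain ⟨z, hz⟩ := hex
      refine ⟨z, fun f hf => ?_⟩
      have : f ∈ F := by simpa [F'] using hf
      exact hz f this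
    have h2 : chB F' (r', δ) = Sum.inl hex'.choose := by
      rw [chB]
      exact dif_pos hex'
    rw [h2] at h1
    refine ⟨hex'.choose, h1, fun f hf => ?_⟩
    exact hex'.choose_spec f (by simp [F', hf])

end Op

/-- the system of compact sets of functions -/
structure Sys {Z : Type u} [TopologicalSpace Z] (H : ℕ → ℕ → Set (Z → ℝ)) : Prop where
  cov : ∀ m, ∀ h : Z → ℝ, Continuous h → ∃ n, h ∈ H n m
  comp : ∀ n m, IsCompact (H n m)
  osc : ∀ n m, ∀ φ ∈ H n m, ∀ z, ∀ᶠ y in 𝓝 z, |φ y - φ z| < 1 / ((m : ℝ) + 1)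

section Retraction

variable {Z : Type u} [TopologicalSpace Z] [CompactSpace Z] [T2Space Z] {H : ℕ → ℕ → Set (Z → ℝ)}
  (hH : Sys H) {E : Set (Z ⊕ C(Z, ℝ))} (hE : Mod H E)

include hH hE

omit [CompactSpace Z] [T2Space Z] in
lemma approx (n m : ℕ) (f : C(Z, ℝ)) (hf : (f : Z → ℝ) ∈ H n m) :
    ∃ φ ∈ H n m, (∀ y ∈ PtsOf E, φ y = f y) ∧
      ∀ z z', (∀ h ∈ FunOf E, h z = h z') → φ z = φ z' := by
  classical
  let D : Set (Z → ℝ) := {φ | ∀ z z', (∀ h ∈ FunOf E, h z = h z') → φ z = φ z'}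
  have hD : IsClosed D := by
    have : D = ⋂ z, ⋂ z', ⋂ _ : (∀ h ∈ FunOf E, h z = h z'), {φ : Z → ℝ | φ z = φ z'} := by
      ext φ; simp [D]
    rw [this]
    refine isClosed_iInter fun z => isClosed_iInter fun z' => isClosed_iInter fun _ => ?_
    exact isClosed_eq (continuous_apply z) (continuous_apply z')
  let t : (PtsOf E) × ℕ → Set (Z → ℝ) := fun q =>
    {φ | |φ q.1 - f q.1| ≤ 2 / ((q.2 : ℝ) + 1)} ∩ D
  have ht : ∀ q, IsClosed (t q) := by
    intro q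
    refine IsClosed.inter (isClosed_le ?_ continuous_const) hD
    have : Continuous fun φ : Z → ℝ => φ q.1 := continuous_apply _
    fun_prop
  have hne : ∀ u : Finset ((PtsOf E) × ℕ), (H n m ∩ ⋂ q ∈ u, t q).Nonempty := by
    intro u
    let F : Finset Z := u.image fun q => (q.1 : Z)
    let K : ℕ := u.sup Prod.snd
    have hδ : (0 : ℝ) < 1 / ((K : ℝ) + 1) := by positivity
    have hr : ∀ y : Z, ∃ r : ℚ, |f y - r| < 1 / ((K : ℝ) + 1) := by
      intro y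
      obtain ⟨r, hr1, hr2⟩ := exists_rat_btwn (show f y - 1 / ((K : ℝ) + 1) < f y by linarith)
      refine ⟨r, ?_⟩
      rw [abs_lt]
      constructor <;> linarith
    choose r hr using hr
    have hFE : (F : Set Z) ⊆ PtsOf E := by
      intro y hy
      simp only [F, Finset.coe_image, mem_image] at hy
      obtain ⟨q, _, rfl⟩ := hy
      exact q.1.2
    obtain ⟨h, hhE, hhH, hh⟩ := hE.a F hFE n m r (1 / ((K : ℚ) + 1)) ⟨f, hf, fun y _ => by
      have := hr y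
      push_cast
      exact this⟩
    refine ⟨h, hhH, ?_⟩
    refine mem_iInter₂.2 fun q hq => ⟨?_, fun z z' hzz => hzz h hhE⟩
    have h1 : (q.1 : Z) ∈ F := Finset.mem_image_of_mem _ hq
    have h2 := hh _ h1
    have h3 := hr q.1
    push_cast at h2
    have h4 : (q.2 : ℝ) ≤ K := by exact_mod_cast Finset.le_sup (f := Prod.snd) hq
    have h5 : 1 / ((K : ℝ) + 1) ≤ 1 / ((q.2 : ℝ) + 1) := by
      apply one_div_le_one_div_of_le (by positivity)
      linarith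
    simp only [mem_ofPred_eq]
    have h6 : (2 : ℝ) / ((q.2 : ℝ) + 1) = 1 / ((q.2 : ℝ) + 1) + 1 / ((q.2 : ℝ) + 1) := by ring
    rw [h6]
    rw [abs_lt] at h2 h3
    rw [abs_le]
    constructor <;> linarith [h2.1, h2.2, h3.1, h3.2]
  obtain ⟨φ, hφH, hφ⟩ := (hH.comp n m).inter_iInter_nonempty t ht hne
  rw [mem_iInter] at hφ
  by_cases hPE : (PtsOf E).Nonempty
  · refine ⟨φ, hφH, ?_, ?_⟩
    · intro y hy
      by_contra hne
      have hpos : 0 < |φ y - f y| := abs_pos.2 (sub_ne_zero.2 hne)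
      obtain ⟨k, hk⟩ := exists_nat_one_div_lt (show 0 < |φ y - f y| / 2 by positivity)
      have h1 : |φ y - f y| ≤ 2 / ((k : ℝ) + 1) := (hφ (⟨y, hy⟩, k)).1
      have h6 : (2 : ℝ) / ((k : ℝ) + 1) = 1 / ((k : ℝ) + 1) + 1 / ((k : ℝ) + 1) := by ring
      linarith
    · obtain ⟨y, hy⟩ := hPE
      exact (hφ (⟨y, hy⟩, 0)).2
  · -- no points: then `Z` is empty
    have hZ : IsEmpty Z := by
      by_contra hZ
      rw [not_isEmpty_iff] at hZ
      obtain ⟨z⟩ := hZ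
      obtain ⟨y, hy, _⟩ := hE.b ∅ (by simp) (fun _ => 0) 0 ⟨z, by simp⟩
      exact hPE ⟨y, hy⟩
    exact ⟨f, hf, fun y _ => rfl, fun z => hZ.elim z⟩

omit [CompactSpace Z] [T2Space Z] in
lemma approx' (n m : ℕ) (f : C(Z, ℝ)) (hf : (f : Z → ℝ) ∈ H n m) :
    ∃ φ ∈ H n m, (∀ z ∈ closure (PtsOf E), |φ z - f z| < 2 / ((m : ℝ) + 1)) ∧
      ∀ z z', (∀ h ∈ FunOf E, h z = h z') → φ z = φ z' := by
  obtain ⟨φ, hφ1, hφ2, hφ3⟩ := approx hH hE n m f hf
  refine ⟨φ, hφ1, fun z hz => ?_, hφ3⟩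
  have h1 := hH.osc n m φ hφ1 z
  have hpos : (0 : ℝ) < 1 / ((m : ℝ) + 1) := by positivity
  have h2 : ∀ᶠ y in 𝓝 z, |f y - f z| < 1 / ((m : ℝ) + 1) := by
    have := f.continuous.continuousAt.eventually (Metric.ball_mem_nhds (f z) hpos)
    filter_upwards [this] with t ht
    simpa [Real.dist_eq] using ht
  obtain ⟨y, hy, hy1, hy2⟩ := (mem_closure_iff_frequently.1 hz |>.and_eventually (h1.and h2)).exists
  rw [hφ2 y hy] at hy1
  have h6 : (2 : ℝ) / ((m : ℝ) + 1) = 1 / ((m : ℝ) + 1) + 1 / ((m : ℝ) + 1) := by ring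
  rw [h6]
  rw [abs_lt] at hy1 hy2 ⊢
  constructor <;> linarith [hy1.1, hy1.2, hy2.1, hy2.2]

lemma sep (z z' : Z) (hz : z ∈ closure (PtsOf E)) (hz' : z' ∈ closure (PtsOf E))
    (h : ∀ f ∈ FunOf E, f z = f z') : z = z' := by
  by_contra hne
  obtain ⟨f, hf0, hf1, hf01⟩ := exists_continuous_zero_one_of_isClosed (isClosed_singleton (x := z))
    (isClosed_singleton (x := z')) (by simpa using hne)
  obtain ⟨n, hn⟩ := hH.cov 3 f f.continuous
  obtain ⟨φ, hφ1, hφ2, hφ3⟩ := approx' hH hE n 3 f hn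
  have h1 := hφ2 z hz
  have h2 := hφ2 z' hz'
  have h3 := hφ3 z z' h
  have h4 : f z = 0 := hf0 rfl
  have h5 : f z' = 1 := hf1 rfl
  rw [h4, h3] at h1
  rw [h5] at h2
  norm_num at h1 h2
  rw [abs_lt] at h1 h2
  linarith [h1.1, h1.2, h2.1, h2.2]

omit hH [T2Space Z] in
lemma exists_retr (z : Z) : ∃ r ∈ closure (PtsOf E), ∀ f ∈ FunOf E, f r = f z := by
  classical
  let t : (FunOf E) × ℕ → Set Z := fun q => {r | |(q.1 : C(Z, ℝ)) r - (q.1 : C(Z, ℝ)) z| ≤ 2 / ((q.2 : ℝ) + 1)}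
  have ht : ∀ q, IsClosed (t q) := by
    intro q
    refine isClosed_le ?_ continuous_const
    fun_prop
  have hne : ∀ u : Finset ((FunOf E) × ℕ), (closure (PtsOf E) ∩ ⋂ q ∈ u, t q).Nonempty := by
    intro u
    let F : Finset C(Z, ℝ) := u.image fun q => (q.1 : C(Z, ℝ))
    let K : ℕ := u.sup Prod.snd
    have hδ : (0 : ℝ) < 1 / ((K : ℝ) + 1) := by positivity
    have hr : ∀ f : C(Z, ℝ), ∃ r : ℚ, |f z - r| < 1 / ((K : ℝ) + 1) := by
      intro f
      obtain ⟨r, hr1, hr2⟩ := exists_rat_btwn (show f z - 1 / ((K : ℝ) + 1) < f z by linarith)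
      refine ⟨r, ?_⟩
      rw [abs_lt]
      constructor <;> linarith
    choose r hr using hr
    have hFE : (F : Set C(Z, ℝ)) ⊆ FunOf E := by
      intro y hy
      simp only [F, Finset.coe_image, mem_image] at hy
      obtain ⟨q, _, rfl⟩ := hy
      exact q.1.2
    obtain ⟨y, hyE, hy⟩ := hE.b F hFE r (1 / ((K : ℚ) + 1)) ⟨z, fun f _ => by
      have := hr f
      push_cast
      exact this⟩
    refine ⟨y, subset_closure hyE, ?_⟩
    refine mem_iInter₂.2 fun q hq => ?_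
    have h1 : (q.1 : C(Z, ℝ)) ∈ F := Finset.mem_image_of_mem _ hq
    have h2 := hy _ h1
    have h3 := hr q.1
    push_cast at h2
    have h4 : (q.2 : ℝ) ≤ K := by exact_mod_cast Finset.le_sup (f := Prod.snd) hq
    have h5 : 1 / ((K : ℝ) + 1) ≤ 1 / ((q.2 : ℝ) + 1) := by
      apply one_div_le_one_div_of_le (by positivity)
      linarith
    simp only [t, mem_ofPred_eq]
    have h6 : (2 : ℝ) / ((q.2 : ℝ) + 1) = 1 / ((q.2 : ℝ) + 1) + 1 / ((q.2 : ℝ) + 1) := by ring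
    rw [h6]
    rw [abs_lt] at h2 h3
    rw [abs_le]
    constructor <;> linarith [h2.1, h2.2, h3.1, h3.2]
  obtain ⟨r, hr1, hr2⟩ := (isClosed_closure.isCompact).inter_iInter_nonempty t ht hne
  rw [mem_iInter] at hr2
  refine ⟨r, hr1, fun f hf => ?_⟩
  by_contra hne
  have hpos : 0 < |f r - f z| := abs_pos.2 (sub_ne_zero.2 hne)
  obtain ⟨k, hk⟩ := exists_nat_one_div_lt (show 0 < |f r - f z| / 2 by positivity)
  have h1 : |f r - f z| ≤ 2 / ((k : ℝ) + 1) := hr2 (⟨f, hf⟩, k)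
  have h6 : (2 : ℝ) / ((k : ℝ) + 1) = 1 / ((k : ℝ) + 1) + 1 / ((k : ℝ) + 1) := by ring
  linarith

/-- the retraction attached to a model -/
lemma exists_retraction : ∃ r : Z → Z, Continuous r ∧ (∀ z, r z ∈ closure (PtsOf E)) ∧
    (∀ z, ∀ f ∈ FunOf E, f (r z) = f z) := by
  choose r hr1 hr2 using exists_retr hE
  refine ⟨r, ?_, hr1, hr2⟩
  rw [continuous_iff_isClosed]
  intro C hC
  let ev : Z → (FunOf E → ℝ) := fun z f => (f : C(Z, ℝ)) z
  have hev : Continuous ev := continuous_pi fun f => (f : C(Z, ℝ)).continuous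
  have h1 : IsClosed (ev '' (C ∩ closure (PtsOf E))) :=
    ((hC.inter isClosed_closure).isCompact.image hev).isClosed
  have h2 : r ⁻¹' C = ev ⁻¹' (ev '' (C ∩ closure (PtsOf E))) := by
    ext z
    constructor
    · intro hz
      refine ⟨r z, ⟨hz, hr1 z⟩, ?_⟩
      funext f
      exact hr2 z f f.2
    · rintro ⟨c, ⟨hcC, hcE⟩, hcz⟩
      have : r z = c := by
        apply sep hH hE _ _ (hr1 z) hcE
        intro f hf
        rw [hr2 z f hf]
        exact (congrFun hcz ⟨f, hf⟩).symm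
      rw [mem_preimage, this]
      exact hcC
  rw [h2]
  exact h1.preimage hev

end Retraction

end Pool.Agent.Lib_MP_89920a_ins.AL
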