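import Pool.Agent.Lib_MP_89920a_ins.Core

/-!
Bounded subsets of `c₀(Γ)`: pointwise convergence is weak convergence.
-/

set_option autoImplicit false

namespace Pool.Agent.Lib_MP_89920a_ins

open Set Topology Filter
open scoped ZeroAtInfty

universe u v w

section

variable {Γ : Type w} [TopologicalSpace Γ] [DiscreteTopology Γ]

/-- The element of `c₀(Γ)` with the given values. -/
noncomputable def toC0 (z : Γ → ℝ) (hz : ∀ ε : ℝ, 0 < ε → {γ : Γ | ε < |z γ|}.Finite) :
    C₀(Γ, ℝ) where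
  toFun := z
  continuous_toFun := continuous_of_discreteTopology
  zero_at_infty' := by
    rw [Filter.cocompact_eq_cofinite, Metric.tendsto_nhds]
    intro ε hε
    rw [Filter.eventually_cofinite]
    refine (hz (ε / 2) (by positivity)).subset fun γ hγ => ?_
    simp only [dist_zero_right, Real.norm_eq_abs, not_lt, mem_ofPred_eq] at hγ ⊢
    linarith

theorem toC0_apply (z : Γ → ℝ) (hz) (γ : Γ) : toC0 z hz γ = z γ := rfl

open Classical in
/-- unit vectors -/
noncomputable def unitVec (γ : Γ) : C₀(Γ, ℝ) :=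
  toC0 (Pi.single γ 1) fun ε hε => (Set.finite_singleton γ).subset fun δ hδ => by
    by_contra hne
    have h1 : δ ≠ γ := hne
    simp only [mem_ofPred_eq, Pi.single_apply, h1, if_false, abs_zero] at hδ
    exact absurd hδ (not_lt.2 hε.le)

open Classical in
theorem sum_apply (F : Finset Γ) (a : Γ → ℝ) (δ : Γ) :
    (∑ γ ∈ F, a γ • unitVec γ : C₀(Γ, ℝ)) δ = if δ ∈ F then a δ else 0 := by
  have h1 : (∑ γ ∈ F, a γ • unitVec γ : C₀(Γ, ℝ)) δ = ∑ γ ∈ F, a γ * (Pi.single γ (1 : ℝ) : Γ → ℝ) δ := by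
    induction F using Finset.induction_on with
    | empty => simp
    | insert b F hb ih =>
      rw [Finset.sum_insert hb, Finset.sum_insert hb, ZeroAtInftyContinuousMap.add_apply, ih]
      rfl
  rw [h1]
  simp [Pi.single_apply]

omit [DiscreteTopology Γ] in
theorem norm_le' {z : C₀(Γ, ℝ)} {C : ℝ} (hC : 0 ≤ C) (h : ∀ γ, |z γ| ≤ C) : ‖z‖ ≤ C := by
  rw [← ZeroAtInftyContinuousMap.norm_toBCF_eq_norm]
  exact (BoundedContinuousFunction.norm_le hC).2 h

theorem hasSum_unit (z : C₀(Γ, ℝ)) (hz : ∀ ε : ℝ, 0 < ε → {γ : Γ | ε < |z γ|}.Finite) :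
    HasSum (fun γ => z γ • unitVec γ) z := by
  classical
  rw [HasSum, SummationFilter.unconditional_filter, Metric.tendsto_atTop]
  intro ε hε
  refine ⟨(hz (ε / 2) (by positivity)).toFinset, fun F hF => ?_⟩
  rw [dist_eq_norm]
  refine lt_of_le_of_lt (norm_le' (C := ε / 2) (by positivity) fun δ => ?_) (by linarith)
  rw [ZeroAtInftyContinuousMap.sub_apply, sum_apply]
  split_ifs with h
  · rw [sub_self, abs_zero]; positivity
  · rw [zero_sub, abs_neg]
    by_contra hcon
    exact h (hF ((hz (ε / 2) (by positivity)).mem_toFinset.2 (not_le.1 hcon)))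

theorem summable_dual (φ : C₀(Γ, ℝ) →L[ℝ] ℝ) : Summable fun γ => |φ (unitVec γ)| := by
  classical
  refine summable_of_sum_le (c := ‖φ‖) (fun γ => abs_nonneg _) fun F => ?_
  have h1 : ∑ γ ∈ F, |φ (unitVec γ)| = φ (∑ γ ∈ F, (SignType.sign (φ (unitVec γ)) : ℝ) • unitVec γ) := by
    rw [map_sum]
    refine Finset.sum_congr rfl fun γ _ => ?_
    rw [map_smul, smul_eq_mul, sign_mul_self]
  rw [h1]
  refine (le_abs_self _).trans ((φ.le_opNorm _).trans ?_)
  refine mul_le_of_le_one_right (norm_nonneg _) (norm_le' zero_le_one fun δ => ?_)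
  rw [sum_apply]
  split_ifs
  · rcases lt_trichotomy (φ (unitVec δ)) 0 with h | h | h
    · simp [h]
    · simp [h]
    · simp [h]
  · simp

theorem eval_eq_tsum (φ : C₀(Γ, ℝ) →L[ℝ] ℝ) (z : C₀(Γ, ℝ))
    (hz : ∀ ε : ℝ, 0 < ε → {γ : Γ | ε < |z γ|}.Finite) :
    φ z = ∑' γ, z γ * φ (unitVec γ) := by
  have h1 := (hasSum_unit z hz).mapL φ
  have h2 : (fun γ => φ (z γ • unitVec γ)) = fun γ => z γ * φ (unitVec γ) := by
    funext γ
    rw [map_smul, smul_eq_mul]
  rw [h2] at h1
  exact h1.tsum_eq.symm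

/-- A continuous map to the unit ball of `c₀(Γ)` with the topology of pointwise convergence is
continuous for the weak topology. -/
theorem continuous_weak {X : Type u} [TopologicalSpace X] {g : X → Γ → ℝ} (hg : EMap g) :
    Continuous fun x => toWeakSpace ℝ C₀(Γ, ℝ) (toC0 (g x) (hg.2.2 x)) := by
  refine WeakBilin.continuous_of_continuous_eval _ fun φ => ?_
  have h1 : (fun x => (topDualPairing ℝ C₀(Γ, ℝ)).flip
      (toWeakSpace ℝ C₀(Γ, ℝ) (toC0 (g x) (hg.2.2 x))) φ) =
      fun x => ∑' γ, g x γ * φ (unitVec γ) := by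
    funext x
    exact eval_eq_tsum φ _ (hg.2.2 x)
  rw [h1]
  refine continuous_tsum (u := fun γ => |φ (unitVec γ)|)
    (fun γ => ((continuous_apply γ).comp hg.1).mul_const _) (summable_dual φ) fun γ x => ?_
  rw [Real.norm_eq_abs, abs_mul]
  exact mul_le_of_le_one_left (abs_nonneg _) (hg.2.1 x γ)

omit [DiscreteTopology Γ] in
theorem continuous_eval (γ : Γ) :
    Continuous fun z : WeakSpace ℝ C₀(Γ, ℝ) => ((toWeakSpace ℝ C₀(Γ, ℝ)).symm z : C₀(Γ, ℝ)) γ := by
  let φ : C₀(Γ, ℝ) →L[ℝ] ℝ := LinearMap.mkContinuous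
    { toFun := fun z => z γ, map_add' := fun _ _ => rfl, map_smul' := fun _ _ => rfl } 1
    fun z => by
      rw [one_mul]
      show ‖z γ‖ ≤ ‖z‖
      rw [← ZeroAtInftyContinuousMap.norm_toBCF_eq_norm]
      exact BoundedContinuousFunction.norm_coe_le_norm z.toBCF γ
  exact WeakBilin.eval_continuous (topDualPairing ℝ C₀(Γ, ℝ)).flip φ

/-- A compact space with a continuous injective map to the unit ball of `c₀(Γ)`, topology of
pointwise convergence, is homeomorphic to a weakly compact subset of the unit ball of the Banach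
space `c₀(Γ)`. -/
theorem exists_weaklyCompact {X : Type u} [TopologicalSpace X] [CompactSpace X] {g : X → Γ → ℝ}
    (hg : EMap g) (hinj : Function.Injective g) :
    ∃ K : Set (WeakSpace ℝ C₀(Γ, ℝ)), IsCompact K ∧ Nonempty (X ≃ₜ K) := by
  set G : X → WeakSpace ℝ C₀(Γ, ℝ) := fun x => toWeakSpace ℝ C₀(Γ, ℝ) (toC0 (g x) (hg.2.2 x)) with hG
  have hGc : Continuous G := continuous_weak hg
  have hE : IsEmbedding g := (hg.1.isClosedEmbedding hinj).isEmbedding
  set e : WeakSpace ℝ C₀(Γ, ℝ) → Γ → ℝ := fun z γ =>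
    ((toWeakSpace ℝ C₀(Γ, ℝ)).symm z : C₀(Γ, ℝ)) γ with he
  have hec : Continuous e := continuous_pi continuous_eval
  have hcomp : e ∘ G = g := by
    funext x γ
    show ((toWeakSpace ℝ C₀(Γ, ℝ)).symm (toWeakSpace ℝ C₀(Γ, ℝ) (toC0 (g x) (hg.2.2 x))) :
      C₀(Γ, ℝ)) γ = g x γ
    rw [LinearEquiv.symm_apply_apply]
    rfl
  have hGE : IsEmbedding G := IsEmbedding.of_comp hGc hec (by rw [hcomp]; exact hE)
  exact ⟨range G, isCompact_range hGc, ⟨hGE.toHomeomorph⟩⟩

end

end Pool.Agent.Lib_MP_89920a_ins
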